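import Pool.Agent.helper52.Jac.Ord

/-!
# The least even non-gap and Jacobsthal's maximal gap for the same primorial

`primo`, `IsGap`, `f`, `J` are defined in `Pool.Agent.helper85.JacDefs`.
-/

namespace Pool.Agent.Results.MP_f24d98_nt.AlmostAllOrder

open Filter Finset Pool.Agent.helper85.Jac

/-- **Main theorem.** There is `δ > 0` such that

* for all large `K`, all but at most `K^(1-δ)` of the `k ≤ K` satisfy
  `(1 - k^(-δ)) min (J(k), k^(1+δ)) ≤ f(k) ≤ J(k) + 2`;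
* for every positive `g` with `g(k) ≤ k^(1+δ)` which varies by at most a constant factor between `k/2` and
  `2k`, the function `f` has the order of growth of `g` if and only if `J` has. -/
theorem result : ∃ δ : ℝ, 0 < δ ∧
    (∀ᶠ K : ℕ in atTop, (((range (K + 1)).filter (fun k : ℕ =>
      ¬ ((1 - (k : ℝ) ^ (-δ)) * min (J k : ℝ) ((k : ℝ) ^ (1 + δ)) ≤ (f k : ℝ) ∧ f k ≤ J k + 2))).card : ℝ) ≤
        (K : ℝ) ^ (1 - δ)) ∧
    ∀ g : ℕ → ℝ, (∃ C : ℝ, ∀ᶠ k : ℕ in atTop, ∀ j : ℕ, k ≤ 2 * j → j ≤ 2 * k → g k ≤ C * g j) →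
      (∀ᶠ k : ℕ in atTop, 0 < g k ∧ g k ≤ (k : ℝ) ^ (1 + δ)) →
      ((∃ c₁ c₂ : ℝ, 0 < c₁ ∧ ∀ᶠ k : ℕ in atTop, c₁ * g k ≤ (f k : ℝ) ∧ (f k : ℝ) ≤ c₂ * g k) ↔
        ∃ c₁ c₂ : ℝ, 0 < c₁ ∧ ∀ᶠ k : ℕ in atTop, c₁ * g k ≤ (J k : ℝ) ∧ (J k : ℝ) ≤ c₂ * g k) := by
  obtain ⟨δ, hδ, hδ2, hT⟩ := Pool.Agent.helper52.Jac.transfer'
  refine ⟨δ, hδ, ?_, ?_⟩
  · filter_upwards [Pool.Agent.helper52.Jac.almost_all δ hδ hδ2 hT] with K hK
    refine le_trans (le_of_eq ?_) hK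
    congr 2
    refine Finset.filter_congr fun k _ => ?_
    rw [not_and_or, not_le]
    exact or_iff_left (not_not_intro (Pool.Agent.helper52.Jac.f_le' k))
  · rintro g ⟨C, hC⟩ hg1
    exact Pool.Agent.helper52.Jac.order_equiv δ hδ hδ2 hT g C hC hg1

end Pool.Agent.Results.MP_f24d98_nt.AlmostAllOrder
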