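import Pool.Agent.helper85.JacMain

/-!
# Every even number up to (essentially) Jacobsthal's maximal gap is a gap

`primo`, `IsGap`, `f`, `J` are defined in `Pool.Agent.helper85.JacDefs`.
-/

namespace Pool.Agent.Results.MP_f24d98_nt.JacobsthalTransfer

open Filter Pool.Agent.helper85.Jac

/-- **Main theorem.** For every `η ∈ (0,1]` there is `δ > 0` such that for all large `k`
`f(k) ≥ min (J(k - ⌈k^(1-δ)⌉) - k^η, k^(1+δ))`. -/
theorem result : ∀ η : ℝ, 0 < η → η ≤ 1 → ∃ δ : ℝ, 0 < δ ∧ ∀ᶠ k : ℕ in atTop,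
    min ((J (k - ⌈(k : ℝ) ^ (1 - δ)⌉₊) : ℝ) - (k : ℝ) ^ η) ((k : ℝ) ^ (1 + δ)) ≤ (f k : ℝ) :=
  transfer_main

end Pool.Agent.Results.MP_f24d98_nt.JacobsthalTransfer
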