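import Pool.Agent.helper85.JacMain
import Pool.Agent.helper85.JacRankin

/-!
# An Erdős-Rankin lower bound for the least even non-gap

`primo`, `IsGap`, `f` are defined in `Pool.Agent.helper85.JacDefs`.
-/

namespace Pool.Agent.Results.MP_f24d98_nt.RankinLowerBound

open Filter Pool.Agent.helper85.Jac

/-- For all large `k` the least even non-gap satisfies
`f(k) ≥ c k (log k)² logloglog k / (loglog k)²` with `c = 1/100000`. -/
theorem result : ∀ᶠ k : ℕ in atTop,
    1 / 100000 * (k * Real.log k ^ 2 * Real.log (Real.log (Real.log k)) / Real.log (Real.log k) ^ 2)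
      ≤ (f k : ℝ) := by
  obtain ⟨δ, hδ, hA⟩ := transfer_main 1 one_pos le_rfl
  -- eventually facts on `k^(1-δ)`
  have hd : ∀ᶠ k : ℕ in atTop, (4 : ℝ) ≤ (k : ℝ) ^ δ :=
    ((tendsto_rpow_atTop hδ).comp tendsto_natCast_atTop_atTop).eventually_ge_atTop _
  have hlog : ∀ᶠ k : ℕ in atTop, Real.log (k : ℝ) ≤ 1 * (k : ℝ) ^ (δ / 2) := by
    have h := (isLittleO_log_rpow_atTop (half_pos hδ)).bound (by norm_num : (0 : ℝ) < 1)
    have h' := tendsto_natCast_atTop_atTop.eventually h
    filter_upwards [h', eventually_ge_atTop 1] with k hk hk1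
    have e1 : 0 ≤ Real.log (k : ℝ) := Real.log_nonneg (by exact_mod_cast hk1)
    have e2 : (0 : ℝ) ≤ (k : ℝ) ^ (δ / 2) := by positivity
    rwa [Real.norm_of_nonneg e1, Real.norm_of_nonneg e2] at hk
  -- the shifted index tends to infinity
  have hhalf : ∀ᶠ k : ℕ in atTop, k / 2 ≤ k - ⌈(k : ℝ) ^ (1 - δ)⌉₊ := by
    filter_upwards [hd, eventually_ge_atTop 100] with k hk hk100
    have hk0 : (0 : ℝ) < k := by exact_mod_cast (by omega : 0 < k)
    have h1 : (k : ℝ) ^ (1 - δ) * (k : ℝ) ^ δ = k := by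
      rw [← Real.rpow_add hk0]; norm_num
    have h2 : 0 < (k : ℝ) ^ (1 - δ) := by positivity
    have h3 : (k : ℝ) ^ (1 - δ) ≤ k / 4 := by
      rw [le_div_iff₀ (by norm_num)]
      have := mul_le_mul_of_nonneg_left hk h2.le
      linarith
    have h4 : (⌈(k : ℝ) ^ (1 - δ)⌉₊ : ℝ) < k / 2 := by
      have : (⌈(k : ℝ) ^ (1 - δ)⌉₊ : ℝ) < (k : ℝ) ^ (1 - δ) + 1 := Nat.ceil_lt_add_one h2.le
      have : (100 : ℝ) ≤ k := by exact_mod_cast hk100
      linarith
    have h5 : 2 * ⌈(k : ℝ) ^ (1 - δ)⌉₊ < k := by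
      have : ((2 * ⌈(k : ℝ) ^ (1 - δ)⌉₊ : ℕ) : ℝ) < k := by push_cast; linarith
      exact_mod_cast this
    omega
  have htend : Tendsto (fun k : ℕ => k - ⌈(k : ℝ) ^ (1 - δ)⌉₊) atTop atTop :=
    tendsto_atTop_mono' atTop hhalf (Nat.tendsto_div_const_atTop two_ne_zero)
  have hJ := htend.eventually J_lower
  filter_upwards [hA, hJ, hhalf, hlog, tendsto_logloglog.eventually_ge_atTop 128,
    tendsto_loglog.eventually_ge_atTop 128, tendsto_log.eventually_ge_atTop 128,
    eventually_ge_atTop 100] with k hAk hJk hhk hlk hs ht hL hk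
  set L := Real.log k with hLdef
  set t := Real.log L with htdef
  set s := Real.log t with hsdef
  set k' := k - ⌈(k : ℝ) ^ (1 - δ)⌉₊ with hk'
  have hk0 : (0 : ℝ) < k := by exact_mod_cast (by omega : 0 < k)
  have hL0 : 0 < L := by linarith
  have ht0 : 0 < t := by linarith
  have hs0 : 0 < s := by linarith
  have hlog2 := Real.log_two_lt_d9
  have hk'le : (k' : ℝ) ≤ k := by exact_mod_cast Nat.sub_le _ _
  have hk'ge : (k : ℝ) / 4 ≤ k' := by
    have h1 : (k : ℝ) ≤ 2 * (k / 2 : ℕ) + 1 := by exact_mod_cast (by omega : k ≤ 2 * (k / 2) + 1)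
    have h2 : ((k / 2 : ℕ) : ℝ) ≤ k' := by exact_mod_cast hhk
    have h3 : (100 : ℝ) ≤ k := by exact_mod_cast hk
    linarith
  have hk'0 : (0 : ℝ) < k' := by linarith
  -- comparison of the iterated logarithms
  have hL'le : Real.log k' ≤ L := Real.log_le_log hk'0 hk'le
  have hL'ge : L / 2 ≤ Real.log k' := by
    have h1 : Real.log ((k : ℝ) / 4) ≤ Real.log k' := Real.log_le_log (by positivity) hk'ge
    rw [Real.log_div hk0.ne' (by norm_num)] at h1
    have h2 : Real.log 4 = 2 * Real.log 2 := by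
      rw [show (4 : ℝ) = 2 ^ 2 by norm_num, Real.log_pow]; norm_num
    linarith
  have hL'0 : 0 < Real.log k' := by linarith
  have ht'le : Real.log (Real.log k') ≤ t := Real.log_le_log hL'0 hL'le
  have ht'ge : t / 2 ≤ Real.log (Real.log k') := by
    have h1 : Real.log (L / 2) ≤ Real.log (Real.log k') := Real.log_le_log (by positivity) hL'ge
    rw [Real.log_div hL0.ne' (by norm_num)] at h1
    linarith
  have ht'0 : 0 < Real.log (Real.log k') := by linarith
  have hs'ge : s / 2 ≤ Real.log (Real.log (Real.log k')) := by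
    have h1 : Real.log (t / 2) ≤ Real.log (Real.log (Real.log k')) :=
      Real.log_le_log (by positivity) ht'ge
    rw [Real.log_div ht0.ne' (by norm_num)] at h1
    linarith
  set G := (k : ℝ) * L ^ 2 * s / t ^ 2 with hG
  have hG' : G / 32 ≤ k' * Real.log k' ^ 2 * Real.log (Real.log (Real.log k'))
      / Real.log (Real.log k') ^ 2 := by
    calc G / 32 = (k / 4 * (L / 2) ^ 2 * (s / 2)) / t ^ 2 := by rw [hG]; ring
      _ ≤ (k' * Real.log k' ^ 2 * Real.log (Real.log (Real.log k')))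
        / Real.log (Real.log k') ^ 2 := by
          have : 0 ≤ Real.log (Real.log (Real.log k')) := by linarith
          gcongr
  -- size of `G`
  have hst : s ≤ t / 2 := log_le_half ht0
  have hLexp : L = Real.exp t := (Real.exp_log hL0).symm
  have hL4 : t ^ 4 / 24 ≤ L := by
    rw [hLexp]
    have := Real.pow_div_factorial_le_exp t ht0.le 4
    norm_num [Nat.factorial] at this
    exact this
  have ht2 : (16384 : ℝ) ≤ t ^ 2 := by
    have := mul_le_mul ht ht (by norm_num) ht0.le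
    rw [sq]; linarith
  have hL2 : 682 * t ^ 2 ≤ L := by
    have h2 := mul_le_mul_of_nonneg_right ht2 (sq_nonneg t)
    have h3 : t ^ 2 * t ^ 2 = t ^ 4 := by ring
    rw [h3] at h2
    linarith
  have hG_ge : 10000000 * k ≤ G := by
    rw [hG, le_div_iff₀ (by positivity)]
    have h1 : 682 * t ^ 2 * 128 ≤ L * s := mul_le_mul hL2 hs (by norm_num) hL0.le
    have h2 : 128 * (L * s) ≤ L ^ 2 * s := by
      have h3 : L * 128 ≤ L * L := mul_le_mul_of_nonneg_left (by linarith) hL0.le
      have h4 : L ^ 2 = L * L := sq L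
      rw [h4]
      calc 128 * (L * s) = (L * 128) * s := by ring
        _ ≤ (L * L) * s := mul_le_mul_of_nonneg_right h3 hs0.le
    have h5 : 10000000 * t ^ 2 ≤ L ^ 2 * s := by linarith
    calc 10000000 * (k : ℝ) * t ^ 2 = k * (10000000 * t ^ 2) := by ring
      _ ≤ k * (L ^ 2 * s) := mul_le_mul_of_nonneg_left h5 hk0.le
      _ = _ := by ring
  have hG_le : G ≤ (k : ℝ) ^ (1 + δ) := by
    have h1 : s / t ^ 2 ≤ 1 := by
      rw [div_le_one (by positivity)]
      have : t * 1 ≤ t * t := mul_le_mul_of_nonneg_left (by linarith) ht0.le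
      rw [sq]
      linarith
    have h2 : L ^ 2 ≤ (k : ℝ) ^ δ := by
      rw [one_mul] at hlk
      calc L ^ 2 ≤ ((k : ℝ) ^ (δ / 2)) ^ 2 := by gcongr
        _ = (k : ℝ) ^ δ := by
            rw [← Real.rpow_natCast, ← Real.rpow_mul hk0.le]
            congr 1
            push_cast
            ring
    calc G = k * L ^ 2 * (s / t ^ 2) := by rw [hG]; ring
      _ ≤ k * (k : ℝ) ^ δ * 1 := by gcongr
      _ = (k : ℝ) ^ (1 + δ) := by rw [mul_one, Real.rpow_add hk0, Real.rpow_one]
  have e : 1 / 100000 * ((k : ℝ) * L ^ 2 * s / t ^ 2) = G / 100000 := by rw [hG]; ring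
  rw [e]
  refine le_trans (le_min ?_ ?_) hAk
  · rw [Real.rpow_one]
    linarith
  · linarith

end Pool.Agent.Results.MP_f24d98_nt.RankinLowerBound
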